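import Pool.Agent.Helper43.UN.GoalsF

/-! Packet UN-Pfn (MP_d3128a_ag): the profiles of the shapes. -/

set_option autoImplicit false

namespace Pool.Agent.Helper61.UN

open Finset
open Pool.Agent.Lead.Sh
open Pool.Agent.Helper43.Ah (rowsD mem_rowsD)
open Pool.Agent.Helper43.UN
open Pool.Agent.Helper18.UW (lg)

theorem big {M A : ℕ} (h : 2 ^ 400 * lg M ^ 3 * M ≤ A) : 1073741824 * M ≤ A := by
  have h1 : 1 ≤ lg M ^ 3 := Nat.one_le_pow _ _ (by unfold lg; omega)
  calc 1073741824 * M = 2 ^ 30 * 1 * M := by norm_num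
    _ ≤ 2 ^ 400 * lg M ^ 3 * M := by gcongr <;> norm_num
    _ ≤ A := h

section
variable {M Mb R A β e : ℕ} {lam : ℕ → ℕ}

theorem le_A (hS : Sh M Mb R A β lam) : ∀ j, j < R → lam j ≤ A := by
  intro j
  induction j with
  | zero => intro _; rw [hS.z]
  | succ j ih => intro h; exact (hS.anti j h).trans (ih (by omega))

theorem low (hS : Sh M Mb R A β lam) (h1 : 1050 * e ≤ A) (h2 : 1050 * e ≤ R) :
    ∀ j, j ≤ e + 60 * M → A ≤ lam j + 9 * j := by
  have hA := big hS.hA
  have hR := big hS.hR
  intro j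
  induction j with
  | zero => intro _; rw [hS.z]; omega
  | succ j ih =>
    intro h
    have := ih (by omega)
    have := hS.nine j (by omega) (by omega)
    omega

/-- the row `j` of the region -/
theorem card_row {j : ℕ} (hj : j < R) :
    (((rowsD R lam).filter (fun x => e ≤ x.1 + x.2)).filter (fun x => x.2 = j)).card =
      lc lam e j := by
  have h : ((rowsD R lam).filter (fun x => e ≤ x.1 + x.2)).filter (fun x => x.2 = j) =
      (Ico (e - j) (lam j)).image (fun i => (i, j)) := by
    ext ⟨a, b⟩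
    simp only [mem_filter, mem_rowsD, mem_image, mem_Ico, Prod.mk.injEq]
    constructor
    · rintro ⟨⟨⟨h1, h2⟩, h3⟩, h4⟩
      subst h4
      exact ⟨a, ⟨by omega, h2⟩, rfl, rfl⟩
    · rintro ⟨i, ⟨h1, h2⟩, h3, h4⟩
      subst h3 h4
      exact ⟨⟨⟨hj, h2⟩, by omega⟩, rfl⟩
  rw [h, card_image_of_injective _ (fun a b hab => (Prod.mk.injEq _ _ _ _ ▸ hab).1), Nat.card_Ico]
  rfl

theorem card_sum (D : Finset (ℕ × ℕ)) (hD : ∀ x ∈ D, x.2 < R) :
    D.card = ∑ j ∈ range R, (D.filter (fun x => x.2 = j)).card := by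
  exact card_eq_sum_card_fiberwise (fun x hx => by
    have := hD x hx
    simpa using this)

theorem card_all (R : ℕ) (lam : ℕ → ℕ) (e : ℕ) :
    ((rowsD R lam).filter (fun x => e ≤ x.1 + x.2)).card = ∑ j ∈ range R, lc lam e j := by
  rw [card_sum (R := R) _ (fun x hx => (mem_rowsD.1 (mem_filter.1 hx).1).1)]
  exact sum_congr rfl fun j hj => card_row (mem_range.1 hj)

theorem card_rowsD' (R : ℕ) (lam : ℕ → ℕ) :
    (rowsD R lam).card = ∑ j ∈ range R, lam j := by
  have h := card_all R lam 0
  have h1 : (rowsD R lam).filter (fun x => 0 ≤ x.1 + x.2) = rowsD R lam :=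
    filter_true_of_mem fun x _ => Nat.zero_le _
  rw [h1] at h
  rw [h]
  exact sum_congr rfl fun j _ => by unfold lc; omega

theorem sum_tri (e : ℕ) : ∑ j ∈ range e, (e - j) = (e + 1).choose 2 := by
  induction e with
  | zero => rfl
  | succ e ih =>
    rw [sum_range_succ', Nat.choose_succ_succ' (e + 1) 1, Nat.choose_one_right, ← ih]
    have : ∑ k ∈ range e, (e + 1 - (k + 1)) = ∑ k ∈ range e, (e - k) :=
      sum_congr rfl fun k _ => by omega
    rw [this]
    omega

end

theorem goalPfn : GoalPfn := by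
  intro M Mb R A β e bm lam hS h1 h2 hbm
  have hA := big hS.hA
  have hR := big hS.hR
  have hM1 := hS.M1
  have hMb := hS.MMb
  have hb := hS.hb
  have hlow := low hS h1 h2
  have hle := le_A hS
  refine ⟨?_, ?_, ?_, ?_, ?_, ?_⟩
  · refine ⟨hS.M1, hS.MMb, by omega, by omega, by omega, by omega, ?_, ?_, ?_, ?_, ?_⟩
    · intro y hy
      unfold lc
      have h3 := hS.pos (R - 1 - y) (by omega)
      rcases Nat.lt_or_ge (R - 1 - y) e with h | h
      · have := hlow (R - 1 - y) (by omega)
        omega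
      · omega
    · intro y hy
      obtain ⟨j, hj⟩ : ∃ j, R - 1 - (y + 1) = j := ⟨_, rfl⟩
      have hj1 : R - 1 - y = j + 1 := by omega
      rw [hj, hj1]
      unfold lc
      have h3 := hS.anti j (by omega)
      rcases Nat.lt_or_ge j e with h | h
      · right; right
        omega
      · rcases hS.str j (by omega) with h4 | h4
        · left; omega
        · right; left; omega
    · intro y hy hy1
      obtain ⟨j, hj⟩ : ∃ j, R - 1 - (y + 1) = j := ⟨_, rfl⟩
      have hj1 : R - 1 - y = j + 1 := by omega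
      rw [hj, hj1]
      unfold lc
      have h3 := hS.nine j (by omega) (by omega)
      omega
    · intro y hy
      unfold lc
      have := hle (R - 1 - y) (by omega)
      omega
    · intro y hy hy1
      unfold lc
      have := hlow (R - 1 - y) (by omega)
      omega
  · intro y hy hy1
    obtain ⟨j, hj⟩ : ∃ j, R - 1 - (y + 1) = j := ⟨_, rfl⟩
    have hj1 : R - 1 - y = j + 1 := by omega
    rw [hj, hj1]
    unfold lc
    have h3 := hS.lin j (by omega)
    have h4 := hlow (j + 1) (by omega)
    rcases hbm with ⟨he, hb0⟩ | ⟨he, hb1⟩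
    · omega
    · omega
  · refine ⟨fun x hx => (mem_rowsD.1 (mem_filter.1 hx).1).1, ?_⟩
    intro j hj
    rw [card_row hj]
    congr 1
    omega
  · rw [card_all R lam e, card_rowsD' R lam, ← sum_tri e]
    have h3 : ∑ j ∈ range e, (e - j) = ∑ j ∈ range R, (e - j) := by
      apply sum_subset
      · intro j hj
        rw [mem_range] at hj ⊢
        omega
      · intro j _ hj
        rw [mem_range] at hj
        omega
    rw [h3, ← sum_add_distrib]
    refine sum_congr rfl fun j hj => ?_
    rw [mem_range] at hj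
    unfold lc
    rcases Nat.lt_or_ge j e with h | h
    · have := hlow j (by omega)
      omega
    · omega
  · intro t ht
    rw [card_rowsD' R lam] at ht
    have hsum : ∑ z ∈ range (R - (e + 60 * M) - 2 * Mb), lc lam e (R - 1 - z) =
        ∑ j ∈ Ico (e + 60 * M + 2 * Mb) R, lam j := by
      have h4 : ∑ j ∈ Ico (e + 60 * M + 2 * Mb) R, lam j =
          ∑ i ∈ range (R - (e + 60 * M + 2 * Mb)), lam (e + 60 * M + 2 * Mb + i) :=
        sum_Ico_eq_sum_range _ _ _
      have h5 : R - (e + 60 * M) - 2 * Mb = R - (e + 60 * M + 2 * Mb) := by omega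
      rw [h4, h5, ← sum_range_reflect]
      refine sum_congr rfl fun i hi => ?_
      rw [mem_range] at hi
      unfold lc
      have h6 : R - 1 - (R - (e + 60 * M + 2 * Mb) - 1 - i) = e + 60 * M + 2 * Mb + i := by omega
      have h7 : e - (e + 60 * M + 2 * Mb + i) = 0 := by omega
      rw [h6, h7, Nat.sub_zero]
    rw [hsum]
    have hsplit : ∑ j ∈ range R, lam j = ∑ j ∈ range (e + 60 * M + 2 * Mb), lam j +
        ∑ j ∈ Ico (e + 60 * M + 2 * Mb) R, lam j :=
      (sum_range_add_sum_Ico _ (by omega)).symm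
    have hsmall : ∑ j ∈ range (e + 60 * M + 2 * Mb), lam j ≤ (e + 60 * M + 2 * Mb) * A := by
      have := sum_le_card_nsmul (range (e + 60 * M + 2 * Mb)) lam A (fun j hj => by
        rw [mem_range] at hj
        exact hle j (by omega))
      rwa [card_range, smul_eq_mul] at this
    have harea := hS.area
    have h8 : 7 * ((e + 60 * M + 2 * Mb) * A) ≤ A * R := by
      have h9 : 7 * (e + 60 * M + 2 * Mb) ≤ R := by omega
      calc 7 * ((e + 60 * M + 2 * Mb) * A) = A * (7 * (e + 60 * M + 2 * Mb)) := by ring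
        _ ≤ A * R := Nat.mul_le_mul_left _ h9
    have hpos : 0 < ∑ j ∈ range R, lam j := by
      have h10 := single_le_sum (f := lam) (fun j _ => Nat.zero_le _)
        (mem_range.2 (show 0 < R by omega))
      have h11 := hS.pos 0 (by omega)
      omega
    omega
  · intro x hx
    rw [mem_triD] at hx
    rw [mem_rowsD]
    have := hlow x.2 (by omega)
    refine ⟨by omega, by omega⟩

end Pool.Agent.Helper61.UN
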