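import Pool.Agent.Helper61.KZ.Asm

/-! Virtually cyclic groups are not virtually `ℤ²`. -/

set_option autoImplicit false

namespace Pool.Agent.Helper61.UN

universe u

theorem cyc_not_z2 {Γ : Type u} [Group Γ] (hc : ∃ c : Γ, (Subgroup.zpowers c).FiniteIndex) :
    ¬ ∃ A : Subgroup Γ, A.FiniteIndex ∧ Nonempty (A ≃* Multiplicative (ℤ × ℤ)) := by
  rintro ⟨A, hA, ⟨e⟩⟩
  obtain ⟨c, hc⟩ := hc
  set x : A := e.symm (Multiplicative.ofAdd (1, 0)) with hx
  set y : A := e.symm (Multiplicative.ofAdd (0, 1)) with hy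
  obtain ⟨n, hn, -, hn2⟩ := Subgroup.exists_pow_mem_of_index_ne_zero hc.index_ne_zero (x : Γ)
  obtain ⟨m, hm, -, hm2⟩ := Subgroup.exists_pow_mem_of_index_ne_zero hc.index_ne_zero (y : Γ)
  obtain ⟨i, hi⟩ := Subgroup.mem_zpowers_iff.1 hn2
  obtain ⟨j, hj⟩ := Subgroup.mem_zpowers_iff.1 hm2
  have h1 : x ^ ((n : ℤ) * j) = y ^ ((m : ℤ) * i) := by
    apply Subtype.ext
    rw [Subgroup.coe_zpow, Subgroup.coe_zpow, zpow_mul, zpow_mul, zpow_natCast, zpow_natCast,
      ← hi, ← hj, ← zpow_mul, ← zpow_mul, mul_comm]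
  have h2 := congrArg e h1
  rw [map_zpow, map_zpow, hx, hy, MulEquiv.apply_symm_apply, MulEquiv.apply_symm_apply,
    ← ofAdd_zsmul, ← ofAdd_zsmul] at h2
  have h3 := Multiplicative.ofAdd.injective h2
  have h4 : (n : ℤ) * j = 0 := by
    have := congrArg Prod.fst h3
    simpa using this
  have h5 : j = 0 := by
    rcases mul_eq_zero.1 h4 with h | h
    · omega
    · exact h
  rw [h5, zpow_zero] at hj
  have h6 : y ^ m = 1 := Subtype.ext (by rw [Subgroup.coe_pow, ← hj]; rfl)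
  have h7 := congrArg e h6
  rw [map_pow, map_one, hy, MulEquiv.apply_symm_apply, ← ofAdd_nsmul] at h7
  have h8 : m • ((0 : ℤ), (1 : ℤ)) = 0 := Multiplicative.ofAdd.injective h7
  have h9 := congrArg Prod.snd h8
  simp at h9
  omega

end Pool.Agent.Helper61.UN
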