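import Pool.Agent.Helper52.UN.FinU
import Pool.Agent.Helper61.UN.Cyc

/-! The final class with virtually soluble groups. -/

set_option autoImplicit false

namespace Pool.Agent.Helper61.UN

open Pool.Agent.Helper52.Wq2 Pool.Agent.Helper61.NW Pool.Agent.Helper52.NW
open Pool.Agent.Helper52.UN (Uv Lrg uv_lrg InC typC)

universe u

/-- **SOL.** -/
def VsolStmt : Prop := ∀ (Γ : Type u) [Group Γ], Infinite Γ →
  (∃ N : Subgroup Γ, N.FiniteIndex ∧ Group.IsSolvable N) →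
  (∃ c : Γ, (Subgroup.zpowers c).FiniteIndex) ∨
    (∃ A : Subgroup Γ, A.FiniteIndex ∧ Nonempty (A ≃* Multiplicative (ℤ × ℤ))) ∨ Uv Γ

/-- The class of groups: virtually soluble groups (if virtually `ℤ²`, then nilpotent or with centre
of finite index or with a nontrivial finite normal subgroup); groups with a large subgroup. -/
def InS (Γ : Type u) [Group Γ] : Prop :=
  ((∃ N : Subgroup Γ, N.FiniteIndex ∧ Group.IsSolvable N) ∧
    ((∃ A : Subgroup Γ, A.FiniteIndex ∧ Nonempty (A ≃* Multiplicative (ℤ × ℤ))) →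
      Group.IsNilpotent Γ ∨ (Subgroup.center Γ).FiniteIndex ∨
        ∃ K : Subgroup Γ, K.Normal ∧ K ≠ ⊥ ∧ (K : Set Γ).Finite)) ∨
  ∃ D : Subgroup Γ, Lrg D

theorem typS (hV : VsolStmt.{u}) {Γ : Type u} [Group Γ] (hΓ : Infinite Γ) {S : Set Γ}
    (hS : IsGen S) (h : InS Γ) :
    KN (cay S) ∨ (∃ b, Nonempty (cay S ≃g Lat b)) ∨ ∃ n, T3 (cay S) n := by
  rcases h with ⟨h1, h2⟩ | h
  · rcases hV Γ hΓ h1 with hc | hz | hu
    · exact typC hΓ hS (Or.inr (Or.inr (Or.inl hc)))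
    · rcases h2 hz with h3 | h3 | h3
      · exact typC hΓ hS (Or.inl h3)
      · exact typC hΓ hS (Or.inr (Or.inl h3))
      · exact Or.inl (Pool.Agent.Helper95.KZ.kz2 Γ S hS hz h3)
    · exact Or.inl (hu S hS)
  · exact Or.inl (uv_lrg h S hS)

/-- The class of pairs. -/
def P1 (Γ : Type u) [Group Γ] (S : Set Γ) : Prop :=
  Countable Γ ∧ ((Infinite Γ ∧ InS Γ) ∨ KN (cay S))

theorem wqo1 (hV : VsolStmt.{u}) : Pool.Agent.Helper74.FP.Wqo.{u} (fun Γ _ S => P1 Γ S) := by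
  intro Γ _ S hS hP
  have : ∀ i, Countable (Γ i) := fun i => (hP i).1
  refine sq3 Γ (fun i => cay (S i)) (fun i => ?_)
  rcases (hP i).2 with ⟨h1, h2⟩ | h1
  · exact typS hV h1 (hS i) h2
  · exact Or.inl h1

/-- The old class is contained in the new one. -/
theorem inS_of_inC {Γ : Type u} [Group Γ] (h : InC Γ) : InS Γ := by
  rcases h with h | h | ⟨c, hc⟩ | h
  · refine Or.inl ⟨⟨⊤, inferInstance, ?_⟩, fun _ => Or.inl h⟩
    have : Group.IsSolvable Γ := inferInstance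
    infer_instance
  · refine Or.inl ⟨⟨Subgroup.center Γ, h, ?_⟩, fun _ => Or.inr (Or.inl h)⟩
    exact Group.isSolvable_of_comm fun a b => Subtype.ext (Subgroup.mem_center_iff.1 b.2 a)
  · refine Or.inl ⟨⟨Subgroup.zpowers c, hc, ?_⟩, fun hz => absurd hz (cyc_not_z2 ⟨c, hc⟩)⟩
    exact Group.isSolvable_of_comm fun a b => IsCyclic.commGroup.mul_comm a b
  · exact Or.inr h

end Pool.Agent.Helper61.UN
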